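import Pool.Agent.H9.PathCover

set_option autoImplicit false

namespace Pool.Agent.Results.MP_2ace6b_co.ThreeQuarters

/-- `v 0, …, v (t-1)` is a noncrossing path in the complete geometric graph on `A`. -/
def IsPlanePath (A : Finset (ℝ × ℝ)) (t : ℕ) (v : ℕ → ℝ × ℝ) : Prop :=
  2 ≤ t ∧ (∀ i < t, v i ∈ A) ∧ Set.InjOn v (Set.Iio t) ∧
    ∀ i j, i + 1 < t → j + 1 < t → i ≠ j →
      segment ℝ (v i) (v (i + 1)) ∩ segment ℝ (v j) (v (j + 1)) ⊆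
        {v i, v (i + 1)} ∩ {v j, v (j + 1)}

theorem result : ∀ c : ℝ, c < 3 / 4 → ∃ n₀ : ℕ, ∀ n ≥ n₀, ∃ A : Finset (ℝ × ℝ), A.card = n ∧
    (∀ a ∈ A, ∀ b ∈ A, ∀ d ∈ A, a ≠ b → a ≠ d → b ≠ d → ¬ Collinear ℝ {a, b, d}) ∧
    ∀ (M : ℕ) (t : Fin M → ℕ) (v : Fin M → ℕ → ℝ × ℝ), (∀ s, IsPlanePath A (t s) (v s)) →
      (∀ a ∈ A, ∀ b ∈ A, a ≠ b → ∃ s i, i + 1 < t s ∧
        ((v s i = a ∧ v s (i + 1) = b) ∨ (v s i = b ∧ v s (i + 1) = a))) →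
      c * n ≤ M := by
  intro c hc
  obtain ⟨n₀, h⟩ := Pool.Agent.H9.PathCover.main c hc
  refine ⟨n₀, fun n hn => ?_⟩
  obtain ⟨A, h1, h2, h3⟩ := h n hn
  exact ⟨A, h1, h2, fun M t v h4 h5 => h3 M t v (fun s => (h4 s).2.2) h5⟩

end Pool.Agent.Results.MP_2ace6b_co.ThreeQuarters
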